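import Pool.Agent.H.MP_58728c_al.C

set_option autoImplicit false

namespace Pool.Agent.Results.MP_58728c_al.Yes

abbrev GClass := ∀ (G : Type) [Group G], Prop

def IsFormation (X : GClass) : Prop :=
  (∃ (G : Type) (_ : Group G), X G) ∧
  (∀ (G : Type) [Group G], X G → Finite G) ∧
  (∀ (G H : Type) [Group G] [Group H], Nonempty (G ≃* H) → X G → X H) ∧
  (∀ (G : Type) [Group G] (N : Subgroup G) [N.Normal], X G → X (G ⧸ N)) ∧
  (∀ (G : Type) [Group G] [Finite G] (N₁ N₂ : Subgroup G) [N₁.Normal] [N₂.Normal],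
    X (G ⧸ N₁) → X (G ⧸ N₂) → X (G ⧸ (N₁ ⊓ N₂)))

def IsSaturated (X : GClass) : Prop :=
  ∀ (G : Type) [Group G] [Finite G], X (G ⧸ frattini G) → X G

def residual (H : GClass) (G : Type) [Group G] : Subgroup G :=
  sInf {N | ∃ _ : N.Normal, H (G ⧸ N)}

def prod (F H : GClass) : GClass := fun G _ => Finite G ∧ F (residual H G)

def prodList : GClass → List GClass → GClass
  | F, [] => F
  | F, H :: l => prod F (prodList H l)

def NonDecomposable (F : GClass) : Prop :=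
  IsFormation F ∧ ¬ ∃ A B : GClass, IsFormation A ∧ IsFormation B ∧ A ≠ F ∧ B ≠ F ∧ F = prod A B

open Pool.Agent.H.MP_4f47f1_al Pool.Agent.H.MP_44c8f1_al Pool.Agent.H.MP_58728c_al

lemma toNF {X : GClass} (h : IsFormation X) : ∃ A : NF, A.mem = X := by
  obtain ⟨⟨G, _, hG⟩, a, b, c, d⟩ := h
  have hP : Phi X := by
    refine ⟨a, fun G K _ _ f hf hG =>
      b _ _ ⟨QuotientGroup.quotientKerEquivOfSurjective f hf⟩ (c G f.ker hG), ?_⟩
    intro G _ N1 N2 _ _ hb x1 x2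
    have := phi_fin.2.2 G N1 N2 hb (a _ x1) (a _ x2)
    exact b _ _ ⟨(QuotientGroup.quotientMulEquivOfEq hb).trans QuotientGroup.quotientBot⟩
      (d G N1 N2 x1 x2)
  exact ⟨⟨X, hP, hP.triv hG⟩, rfl⟩

lemma ofNF (A : NF) : IsFormation A.mem :=
  ⟨⟨PUnit, _, A.ne⟩, A.ok.1, fun _ _ _ _ ⟨e⟩ hG => A.ok.iso e hG,
    fun _ _ N _ hG => A.ok.2.1 _ _ (QuotientGroup.mk' N) (QuotientGroup.mk'_surjective N) hG,
    fun _ _ _ N1 N2 _ _ x1 x2 => A.ok.qr (QuotientGroup.mk' N1) (QuotientGroup.mk' N2)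
      (QuotientGroup.mk' _) (QuotientGroup.mk'_surjective _) (QuotientGroup.mk'_surjective _)
      (QuotientGroup.mk'_surjective _) x1 x2 (by simp [QuotientGroup.ker_mk'])⟩

lemma prodList_eq (l : List NF) : ∀ A : NF, prodList A.mem (l.map NF.mem) = (A :: l).prod.mem := by
  induction l with
  | nil => intro A; simp [prodList]
  | cons B l ih =>
    intro A
    rw [List.map_cons, prodList, ih, List.prod_cons (a := A)]
    rfl

theorem result (G₀ : Type) [Group G₀] [Finite G₀] (F : GClass) (hF : IsFormation F)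
    (hM : ∀ (X : Type) [Group X], F X →
      ∀ M : GClass, IsFormation M → IsSaturated M → M G₀ → M X)
    (hne : F ≠ prod F F) :
    ∃ (F₁ : GClass) (l : List GClass), (∀ A ∈ F₁ :: l, NonDecomposable A) ∧ F = prodList F₁ l := by
  obtain ⟨F, rfl⟩ := toNF hF
  let Y : NF := ⟨YY (Nat.card G₀), phi_YY _, (phi_YY _).triv (G := G₀)
    ⟨inferInstance, fun p _ => ⟨⊥, inferInstance, IsPGroup.of_bot, fun t _ _ => by simp⟩⟩⟩
  have hY : LY (Nat.card G₀) F := fun X _ hX => hM X hX Y.mem (ofNF Y) (sat_YY _)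
    ⟨inferInstance, fun p _ => ⟨⊥, inferInstance, IsPGroup.of_bot, fun t _ _ => by simp⟩⟩
  obtain ⟨l, l1, l2, l3⟩ := main Nat.card_pos F hY (by
    rintro rfl
    exact hne (congrArg NF.mem (mul_one (1 : NF)).symm))
  obtain ⟨A, l, rfl⟩ := List.exists_cons_of_ne_nil l1
  refine ⟨A.mem, l.map NF.mem, fun X hX => ?_, by rw [prodList_eq, l3]⟩
  rw [← List.map_cons, List.mem_map] at hX
  obtain ⟨B, hB, rfl⟩ := hX
  refine ⟨ofNF B, ?_⟩
  rintro ⟨U, V, hU, hV, a, b, c⟩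
  obtain ⟨U, rfl⟩ := toNF hU
  obtain ⟨V, rfl⟩ := toNF hV
  exact l2 B hB ⟨U, V, fun h => a (h ▸ rfl), fun h => b (h ▸ rfl), NF.ext c⟩

end Pool.Agent.Results.MP_58728c_al.Yes
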